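import Pool.Agent.helper12.TY.Spec

set_option autoImplicit false

namespace Pool.Agent.TY

open Pool.Agent.helper58.DC Pool.Agent.DI Pool.Agent.GR Pool.Agent.OB Pool.Agent.TZ

open Classical in
theorem YWN_sumd {Z : Type} [Finite Z] (δ w : Z → ℤ) (P : Z → Prop) :
    ∑ᶠ d : ℤ, (∑ᶠ z : Z, if δ z = d ∧ P z then w z else 0) = ∑ᶠ z : Z, if P z then w z else 0 := by
  have := Fintype.ofFinite Z
  have h1 : ∀ d : ℤ, (∑ᶠ z : Z, if δ z = d ∧ P z then w z else 0) =
      ∑ z : Z, if δ z = d ∧ P z then w z else 0 := fun d => finsum_eq_sum_of_fintype _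
  have h2 : (∑ᶠ z : Z, if P z then w z else 0) = ∑ z : Z, if P z then w z else 0 :=
    finsum_eq_sum_of_fintype _
  simp only [h1]
  rw [h2]
  rw [finsum_eq_sum_of_support_subset (s := Finset.univ.image δ)]
  · rw [Finset.sum_comm]
    apply Finset.sum_congr rfl
    intro z _
    rw [Finset.sum_eq_single (δ z)]
    · simp
    · intro d _ hd
      rw [if_neg]
      rintro ⟨h, -⟩
      exact hd h.symm
    · intro h
      exact absurd (Finset.mem_image_of_mem δ (Finset.mem_univ z)) h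
  · intro d hd
    rw [Function.mem_support] at hd
    obtain ⟨z, -, hz⟩ := Finset.exists_ne_zero_of_sum_ne_zero hd
    have : δ z = d ∧ P z := by
      by_contra hcon
      exact hz (if_neg hcon)
    rw [Finset.coe_image]
    exact ⟨z, by simp, this.1⟩

open Classical in
theorem YWN_num {A : Type} [Group A] (S : SSet A) (U : Subgroup A) :
    ∑ᶠ d : ℤ, S.num d U = ∑ᶠ z : S.Z, if (∀ a, a ∈ U ↔ S.act a z = z) then (-1 : ℤ) ^ S.len z else 0 := by
  have := S.fin
  exact YWN_sumd S.dfc (fun z => (-1) ^ S.len z) (fun z => ∀ a, a ∈ U ↔ S.act a z = z)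

open Classical in
theorem YWN_fix {A : Type} [Group A] (S : SSet A) (U : Subgroup A) :
    ∑ᶠ d : ℤ, S.fix d U = ∑ᶠ z : S.Z, if (∀ a ∈ U, S.act a z = z) then (-1 : ℤ) ^ S.len z else 0 := by
  have := S.fin
  exact YWN_sumd S.dfc (fun z => (-1) ^ S.len z) (fun z => ∀ a ∈ U, S.act a z = z)

open Classical in
theorem YWN_sub {Z : Type} (P : Z → Prop) (w : Z → ℤ) :
    ∑ᶠ z : {z : Z // P z}, w z.1 = ∑ᶠ z : Z, if P z then w z else 0 := by
  have h := finsum_subtype_eq_finsum_cond (f := w) P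
  refine h.trans ?_
  apply finsum_congr
  intro z
  exact finsum_eq_if

/-- the sum over `d` of the fixed point numbers of the path set -/
theorem YWN_path (hFX : Pool.Agent.helper58.DC.FX_stmt) {L T : Type} [Group L] [MulAction L T] [Fintype T]
    (S : SSet Unit) (c : Cocycle L T Unit) (V : Subgroup L) :
    ∑ᶠ d : ℤ, (pathS S c).fix d V =
      ∑ᶠ z : {z : T → S.Z // ∀ l ∈ V, ∀ t, z (l • t) = z t},
        ∏ᶠ O : MulAction.orbitRel.Quotient V T, (-1 : ℤ) ^ S.len (z.1 O.out) := by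
  classical
  have := S.fin
  have h1 : ∀ d : ℤ, (pathS S c).fix d V =
      ∑ᶠ z : T → S.Z, if (∑ t, S.dfc (z t)) = d ∧ (∀ l ∈ V, ∀ t, z (l • t) = z t) then
        ∏ᶠ O : MulAction.orbitRel.Quotient V T, (-1 : ℤ) ^ S.len (z O.out) else 0 := by
    intro d
    rw [hFX Unit L T S c d V]
    rw [YWN_sub (fun z : T → S.Z => (∀ l ∈ V, ∀ t, z (l • t) = S.act (c.κ l t) (z t)) ∧
      ∑ t, S.dfc (z t) = d) (fun z => ∏ᶠ O : MulAction.orbitRel.Quotient V T, (-1 : ℤ) ^ S.len (z O.out))]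
    apply finsum_congr
    intro z
    have h2 : ((∀ l ∈ V, ∀ t, z (l • t) = S.act (c.κ l t) (z t)) ∧ ∑ t, S.dfc (z t) = d) ↔
        ((∑ t, S.dfc (z t)) = d ∧ (∀ l ∈ V, ∀ t, z (l • t) = z t)) := by
      have h3 : ∀ (l : L) (t : T), S.act (c.κ l t) (z t) = z t := by
        intro l t
        have : c.κ l t = 1 := Subsingleton.elim _ _
        rw [this, map_one]
        rfl
      simp only [h3]
      exact and_comm
    simp only [h2]
  simp only [h1]
  rw [YWN_sumd (fun z : T → S.Z => ∑ t, S.dfc (z t))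
    (fun z => ∏ᶠ O : MulAction.orbitRel.Quotient V T, (-1 : ℤ) ^ S.len (z O.out))
    (fun z => ∀ l ∈ V, ∀ t, z (l • t) = z t)]
  rw [YWN_sub (fun z : T → S.Z => ∀ l ∈ V, ∀ t, z (l • t) = z t)
    (fun z => ∏ᶠ O : MulAction.orbitRel.Quotient V T, (-1 : ℤ) ^ S.len (z O.out))]

theorem YWN_top {L : Type} [Group L] [Fintype L] (S : SSet Unit) :
    ∑ᶠ z : {z : L → S.Z // ∀ l ∈ (⊤ : Subgroup L), ∀ t, z (l • t) = z t},
        ∏ᶠ O : MulAction.orbitRel.Quotient (⊤ : Subgroup L) L, (-1 : ℤ) ^ S.len (z.1 O.out) =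
      ∑ᶠ y : S.Z, (-1 : ℤ) ^ S.len y := by
  have hsub : ∀ O O' : MulAction.orbitRel.Quotient (⊤ : Subgroup L) L, O = O' := by
    intro O O'
    induction O using Quotient.inductionOn
    induction O' using Quotient.inductionOn
    rename_i a b
    apply Quotient.sound
    refine ⟨⟨a * b⁻¹, trivial⟩, ?_⟩
    show (a * b⁻¹) * b = a
    group
  have hconst : ∀ z : {z : L → S.Z // ∀ l ∈ (⊤ : Subgroup L), ∀ t, z (l • t) = z t}, ∀ t, z.1 t = z.1 1 := by
    intro z t
    have := z.2 t trivial 1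
    rwa [smul_eq_mul, mul_one] at this
  refine finsum_eq_of_bijective (fun z => z.1 1) ⟨?_, ?_⟩ ?_
  · intro z z' h
    apply Subtype.ext
    funext t
    rw [hconst z t, hconst z' t]
    exact h
  · intro y
    exact ⟨⟨fun _ => y, fun _ _ _ => rfl⟩, rfl⟩
  · intro z
    rw [finprod_eq_single _ (Quotient.mk _ (1 : L)) (fun O hO => absurd (hsub _ _) hO)]
    rw [hconst z]

theorem YWN_bot {L : Type} [Group L] [Fintype L] (S : SSet Unit) :
    ∑ᶠ z : {z : L → S.Z // ∀ l ∈ (⊥ : Subgroup L), ∀ t, z (l • t) = z t},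
        ∏ᶠ O : MulAction.orbitRel.Quotient (⊥ : Subgroup L) L, (-1 : ℤ) ^ S.len (z.1 O.out) =
      (∑ᶠ y : S.Z, (-1 : ℤ) ^ S.len y) ^ Fintype.card L := by
  classical
  have := S.fin
  have := Fintype.ofFinite S.Z
  have hout : ∀ t : L, (Quotient.mk (MulAction.orbitRel (⊥ : Subgroup L) L) t).out = t := by
    intro t
    have h1 := Quotient.mk_out (s := MulAction.orbitRel (⊥ : Subgroup L) L) t
    obtain ⟨⟨l, hl⟩, h2⟩ := h1
    rw [Subgroup.mem_bot] at hl
    subst hl
    have h3 : (1 : L) * t = (Quotient.mk (MulAction.orbitRel (⊥ : Subgroup L) L) t).out := h2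
    rw [← h3, one_mul]
  have hprod : ∀ z : L → S.Z, ∏ᶠ O : MulAction.orbitRel.Quotient (⊥ : Subgroup L) L, (-1 : ℤ) ^ S.len (z O.out) =
      ∏ t, (-1 : ℤ) ^ S.len (z t) := by
    intro z
    rw [← finprod_eq_prod_of_fintype]
    symm
    refine finprod_eq_of_bijective (fun t => Quotient.mk (MulAction.orbitRel (⊥ : Subgroup L) L) t) ⟨?_, ?_⟩ ?_
    · intro t t' h
      have := congrArg Quotient.out h
      simp only at this
      rwa [hout, hout] at this
    · intro O
      exact ⟨O.out, Quotient.out_eq O⟩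
    · intro t
      rw [hout]
  simp only [hprod]
  rw [YWN_sub (fun z : L → S.Z => ∀ l ∈ (⊥ : Subgroup L), ∀ t, z (l • t) = z t)
    (fun z => ∏ t, (-1 : ℤ) ^ S.len (z t))]
  have htriv : ∀ z : L → S.Z, (∀ l ∈ (⊥ : Subgroup L), ∀ t, z (l • t) = z t) := by
    intro z l hl t
    rw [Subgroup.mem_bot] at hl
    rw [hl, one_smul]
  refine (finsum_congr fun z => if_pos (htriv z)).trans ?_
  rw [finsum_eq_sum_of_fintype, finsum_eq_sum_of_fintype]
  have h := Finset.prod_univ_sum (fun _ : L => (Finset.univ : Finset S.Z)) (fun _ y => (-1 : ℤ) ^ S.len y)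
  rw [Finset.prod_const, Finset.card_univ, Fintype.piFinset_univ] at h
  exact h.symm

theorem YWN (hYWF : YWF_stmt) (hYWS : YWS_stmt) (hCL0 : Pool.Agent.helper58.DC.CL0_stmt)
    (hCL1 : Pool.Agent.helper58.DC.CL1_stmt) (hPR : Pool.Agent.helper58.DC.PR_stmt)
    (hIS : Pool.Agent.helper58.DC.IS_stmt) (hMB : Pool.Agent.helper58.DC.MB_stmt)
    (hFX : Pool.Agent.helper58.DC.FX_stmt) (hPT : Pool.Agent.helper58.DC.PT_stmt)
    (hTOA : Pool.Agent.OB.TOA_stmt) : YWN_stmt := by
  classical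
  intro p hp M G _ _ hG χ hχ
  obtain ⟨hf, hcT, -, -⟩ := hYWF p G
  obtain ⟨ht, hst, hst'⟩ := hYWS p M G χ hχ
  obtain ⟨S, cls, hcls⟩ := hCL0 G G Unit (trivE G) p M χ hχ hst
  obtain ⟨S', cls', hcls'⟩ := hCL0 (Tp p → G) (WG p G) (Tp p) (WX p G) p M (tens fun _ : Tp p => χ) ht hst'
  have hiso := hPR G G Unit (Tp p) (Tp p) (trivE G) (c0 p) p M hG χ hχ hst S cls hcls S' cls' hcls'
  have hS := S.fin
  have hQ := (pathS S (c0 p)).fin
  -- the number of `G`
  have haB : aB p M χ = ∑ᶠ y : S.Z, (-1 : ℤ) ^ S.len y := by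
    rw [hTOA G G Unit (trivE G) p M χ]
    have h1 : ∀ d : ℤ, ∑ᶠ V : Subgroup Unit, altSum (trivE G) p M χ d V = S.num d ⊤ := by
      intro d
      rw [finsum_eq_single _ ⊤ (fun V hV => absurd (Subsingleton.elim V ⊤) hV)]
      exact hCL1 G G Unit (trivE G) p M χ hχ hst S cls hcls d ⊤
    simp only [h1]
    rw [YWN_num]
    apply finsum_congr
    intro y
    rw [if_pos]
    intro a
    have ha : a = 1 := Subsingleton.elim _ _
    subst ha
    rw [map_one]
    exact ⟨fun _ => rfl, fun _ => trivial⟩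
  have haS : ∀ U : Subgroup (Tp p), aS (WX p G) p M (tens fun _ : Tp p => χ) U =
      ∑ᶠ d : ℤ, (pathS S (c0 p)).num d U := by
    intro U
    unfold aS
    apply finsum_congr
    intro d
    rw [hCL1 (Tp p → G) (WG p G) (Tp p) (WX p G) p M (tens fun _ : Tp p => χ) ht hst' S' cls' hcls' d U]
    exact (hIS (Tp p) S' (pathS S (c0 p)) hiso d U).1
  have hcard : Fintype.card (Tp p) = p := by
    rw [← Nat.card_eq_fintype_card]
    exact hcT
  have hprime : Fact (Nat.card (Tp p)).Prime := ⟨by rw [hcT]; exact hp.out⟩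
  have htop := YWN_path hFX S (c0 p) ⊤
  rw [YWN_fix, YWN_top, ← haB] at htop
  have hbot := YWN_path hFX S (c0 p) ⊥
  rw [YWN_fix, YWN_bot, ← haB, hcard] at hbot
  constructor
  · rw [haS, YWN_num, ← htop]
    apply finsum_congr
    intro z
    have h9 : (∀ a, a ∈ (⊤ : Subgroup (Tp p)) ↔ (pathS S (c0 p)).act a z = z) ↔
        (∀ a ∈ (⊤ : Subgroup (Tp p)), (pathS S (c0 p)).act a z = z) :=
      ⟨fun h a ha => (h a).1 ha, fun h a => ⟨fun ha => h a ha, fun _ => trivial⟩⟩
    by_cases h10 : ∀ a ∈ (⊤ : Subgroup (Tp p)), (pathS S (c0 p)).act a z = z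
    · rw [if_pos h10, if_pos (h9.2 h10)]
    · rw [if_neg h10, if_neg (fun h => h10 (h9.1 h))]
  · rw [haS, haS, YWN_num, YWN_num, ← hbot]
    rw [← finsum_add_distrib (Set.toFinite _) (Set.toFinite _)]
    apply finsum_congr
    intro z
    have h0 : ∀ a ∈ (⊥ : Subgroup (Tp p)), (pathS S (c0 p)).act a z = z := by
      intro a ha
      rw [Subgroup.mem_bot] at ha
      rw [ha, map_one]
      rfl
    rw [if_pos h0]
    -- the stabiliser
    obtain ⟨H, hH⟩ : ∃ H : Subgroup (Tp p), ∀ a, a ∈ H ↔ (pathS S (c0 p)).act a z = z := by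
      refine ⟨{ carrier := {a | (pathS S (c0 p)).act a z = z}, mul_mem' := ?_, one_mem' := ?_, inv_mem' := ?_ },
        fun a => Iff.rfl⟩
      · intro a b ha hb
        have ha' : (pathS S (c0 p)).act a z = z := ha
        have hb' : (pathS S (c0 p)).act b z = z := hb
        show (pathS S (c0 p)).act (a * b) z = z
        rw [map_mul, Equiv.Perm.mul_apply, hb', ha']
      · show (pathS S (c0 p)).act 1 z = z
        rw [map_one]
        rfl
      · intro a ha
        have ha' : (pathS S (c0 p)).act a z = z := ha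
        show (pathS S (c0 p)).act a⁻¹ z = z
        rw [map_inv, Equiv.Perm.inv_eq_iff_eq]
        exact ha'.symm
    have hne : (⊥ : Subgroup (Tp p)) ≠ ⊤ := by
      intro h
      have h1 : Nat.card (⊥ : Subgroup (Tp p)) = Nat.card (⊤ : Subgroup (Tp p)) := by rw [h]
      rw [Subgroup.card_bot, Subgroup.card_top, hcT] at h1
      exact hp.out.one_lt.ne h1
    rcases Subgroup.eq_bot_or_eq_top_of_prime_card H with h | h
    · rw [h] at hH
      rw [if_pos hH, if_neg, add_zero]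
      intro h2
      apply hne
      ext a
      rw [hH a, h2 a]
    · rw [h] at hH
      rw [if_neg, if_pos hH, zero_add]
      intro h2
      apply hne
      ext a
      rw [hH a, h2 a]

end Pool.Agent.TY
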